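import Mathlib
import Pool.Agent.MP_264e74_co.h91.Build

set_option autoImplicit false

namespace Pool.Agent.Results.MP_264e74_co.HalvingBound

open Function

/-- `H` is a Latin hypercuboid in `LHC(d, n, k)`: an array indexed by `[n]^(d-1) × [k]` with entries
in `[n]` and no symbol repeated along an axis-parallel line. -/
def IsLHC (d n k : ℕ) (H : (Fin (d - 1) → Fin n) → Fin k → Fin n) : Prop :=
  (∀ x, Injective (H x)) ∧
    ∀ (i : Fin (d - 1)) (x : Fin (d - 1) → Fin n) (l : Fin k),
      Injective fun a : Fin n => H (update x i a) l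

/-- `H` is contained in a Latin hypercube of the same order and dimension. -/
def Completable (d n k : ℕ) (H : (Fin (d - 1) → Fin n) → Fin k → Fin n) : Prop :=
  ∃ L : (Fin (d - 1) → Fin n) → Fin n → Fin n, IsLHC d n n L ∧
    ∀ x (l : Fin k) (l' : Fin n), (l' : ℕ) = l → L x l' = H x l

open Pool.Agent.MP_264e74_co.H91

theorem of_trap (e n k : ℕ) (hk : k < n) (c : (Fin (e + 1) → Fin n) → Option (Fin k))
    (hv : Val c) (hs : Stuck c) :
    ∃ H : (Fin (e + 1 - 1) → Fin n) → Fin k → Fin n, IsLHC (e + 1) n k H ∧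
      ¬ Completable (e + 1) n k H := by
  classical
  change ∃ H : (Fin e → Fin n) → Fin k → Fin n, IsLHC (e + 1) n k H ∧
      ¬ Completable (e + 1) n k H
  have a0 : Fin n := ⟨k, hk⟩
  have hex : ∀ (y : Fin e → Fin n) (l : Fin k), ∃! a, c (Fin.cons a y) = some l := by
    intro y l
    simpa using hv l 0 (Fin.cons a0 y)
  choose H hH using hex
  have hS : ∀ (y : Fin e → Fin n) l a, c (Fin.cons a y) = some l ↔ H y l = a := fun y l a =>
    ⟨fun h => ((hH y l).2 a h).symm, fun h => h ▸ (hH y l).1⟩
  refine ⟨H, ⟨fun y l l' h => Option.some_injective _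
    ((hH y l).1.symm.trans ((hS y l' _).mpr h.symm)), ?_⟩, ?_⟩
  · intro i y l a a' h
    obtain ⟨b, -, hb⟩ := hv l (Fin.succ i) (Fin.cons (H (update y i a) l) y)
    simp only [← Fin.cons_update] at hb
    rw [hb a ((hS _ _ _).mpr rfl), hb a' ((hS _ _ _).mpr h.symm)]
  · rintro ⟨L, ⟨hL1, hL2⟩, hL⟩
    let eL : (Fin e → Fin n) → Fin n ≃ Fin n := fun y =>
      Equiv.ofBijective (L y) (Finite.injective_iff_bijective.mp (hL1 y))
    have hC : ∀ (x : Fin (e + 1) → Fin n) γ,
        (eL (Fin.tail x)).symm (x 0) = γ ↔ L (Fin.tail x) γ = x 0 := fun x γ => by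
      rw [Equiv.symm_apply_eq, eq_comm]
      rfl
    refine hs (Fin n) (fun x => (eL (Fin.tail x)).symm (x 0)) (Fin.castLE hk.le) (fun γ => ?_)
      fun x l h => ?_
    · simp only [hC]
      intro i x
      refine Fin.cases ?_ (fun i => ?_) i
      · simp
      · have hb : Bijective fun a : Fin n => L (update (Fin.tail x) i a) γ :=
          Finite.injective_iff_bijective.mp (hL2 i (Fin.tail x) γ)
        simpa [Fin.tail_update_succ, update_of_ne (Fin.succ_ne_zero i).symm] using
          hb.existsUnique (x 0)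
    · rw [← Fin.cons_self_tail x, hS] at h
      rw [hC, hL (Fin.tail x) l _ rfl, h]

theorem more {D D' G X Λ Λ' : Type} [Fintype D'] [DecidableEq D] [DecidableEq D']
    [AddCommGroup G] {c : (D → G) → Option Λ} (hv : Val c) (hs : Stuck c) (s : D → D')
    (q : D' → D) (hq : ∀ i, q (s i) = i) (g : X ≃ G) (f : Λ ≃ Λ') :
    ∃ c' : (D' → X) → Option Λ', Val c' ∧ Stuck c' := by
  refine transport hv hs (fun x i => ∑ j with q j = i, g (x j))
    (fun y j => g.symm (if j = s (q j) then y (q j) else 0)) f (fun S h j x => ?_)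
    (fun S h i y => ?_) fun y => funext fun i => ?_
  · have key : ∀ a, (fun i => ∑ j' with q j' = i, g (update x j a j')) =
        update (fun i => ∑ j' with q j' = i, g (x j')) (q j)
          ((∑ j' with q j' = q j, g (x j')) - g (x j) + g a) := fun a => funext fun i => by
      by_cases e : i = q j
      · subst e
        have hj : j ∈ Finset.univ.filter fun j' => q j' = q j := by simp
        rw [update_self, ← Finset.add_sum_erase _ _ hj,
          ← Finset.add_sum_erase _ (fun j' => g (x j')) hj, update_self,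
          Finset.sum_congr rfl fun j' hj' => by rw [update_of_ne (Finset.mem_erase.1 hj').1]]
        abel
      · rw [update_of_ne e]
        refine Finset.sum_congr rfl fun j' hj' => ?_
        rw [update_of_ne fun k => e (by rw [← k, (Finset.mem_filter.1 hj').2])]
    simp only [key]
    obtain ⟨b, hb, hu⟩ := h (q j) fun i => ∑ j' with q j' = i, g (x j')
    refine ⟨g.symm (b - ((∑ j' with q j' = q j, g (x j')) - g (x j))), by simpa using hb,
      fun a ha => ?_⟩
    rw [← hu _ ha]
    simp
  · have key : ∀ a, (fun j => g.symm (if j = s (q j) then update y i a (q j) else 0)) =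
        update (fun j => g.symm (if j = s (q j) then y (q j) else 0)) (s i) (g.symm a) :=
      fun a => funext fun j => by
        by_cases e : j = s i
        · subst e
          simp [hq]
        · rw [update_of_ne e]
          split_ifs with k
          · rw [update_of_ne fun k' => e (by rw [k, k'])]
          · rfl
    simp only [key]
    obtain ⟨b, hb, hu⟩ := h (s i) fun j => g.symm (if j = s (q j) then y (q j) else 0)
    refine ⟨g b, by simpa using hb, fun a ha => ?_⟩
    rw [← hu _ ha]
    simp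
  · rw [Finset.sum_eq_single (s i)]
    · simp [hq]
    · intro j hj hne
      simp [(Finset.mem_filter.1 hj).2, hne]
    · intro h
      exact absurd (by simp [hq]) h

/-- For `3 ≤ e ≤ d` and `t ≥ 1` there is a Latin hypercuboid of dimension `d` and order
`n = 2 ^ (e + 2) * t` with `k = 8 * t + 3 = n / 2 ^ (e - 1) + 3 < n` layers that is not completable. -/
theorem result (e d t : ℕ) (he : 3 ≤ e) (hd : e ≤ d) (ht : 1 ≤ t) :
    8 * t + 3 < 2 ^ (e + 2) * t ∧
    ∃ H : (Fin (d - 1) → Fin (2 ^ (e + 2) * t)) → Fin (8 * t + 3) → Fin (2 ^ (e + 2) * t),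
      IsLHC d (2 ^ (e + 2) * t) (8 * t + 3) H ∧
      ¬ Completable d (2 ^ (e + 2) * t) (8 * t + 3) H := by
  classical
  obtain ⟨r, rfl⟩ : ∃ r, e = r + 3 := ⟨e - 3, by omega⟩
  obtain ⟨m, rfl⟩ : ∃ m, d = m + 1 := ⟨d - 1, by omega⟩
  have hlt : 8 * t + 3 < 2 ^ (r + 3 + 2) * t := by
    have : 32 ≤ 2 ^ (r + 3 + 2) := Nat.pow_le_pow_right (n := 2) (i := 5) (by norm_num) (by omega)
    nlinarith
  refine ⟨hlt, ?_⟩
  have : NeZero t := ⟨by omega⟩
  obtain ⟨c, hv, hs⟩ := exists_trap (ι := Fin r) (Z := ZMod t)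
  obtain ⟨s⟩ : Nonempty (Fin 3 ⊕ Fin r ↪ Fin (m + 1)) :=
    Function.Embedding.nonempty_of_card_le (by simp; omega)
  let g : Fin (2 ^ (r + 3 + 2) * t) ≃ Gp (Fin r) (ZMod t) :=
    Fintype.equivOfCardEq (by simp [ZMod.card]; ring)
  let f : ((Fin 3 → ZMod 2) × ZMod t) ⊕ Fin 3 ≃ Fin (8 * t + 3) :=
    Fintype.equivOfCardEq (by simp [ZMod.card])
  obtain ⟨c', hv', hs'⟩ := more hv hs s (invFun s) (leftInverse_invFun s.injective) g f
  exact of_trap m _ _ hlt c' hv' hs'

end Pool.Agent.Results.MP_264e74_co.HalvingBound
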