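import Mathlib
import Pool.Agent.MP_264e74_co.Base

set_option autoImplicit false

namespace Pool.Agent.Results.MP_264e74_co.QuarterBound

open Function

/-- `H` is a Latin hypercuboid in `LHC(d, n, k)`: an array indexed by `[n]^(d-1) × [k]` with entries
in `[n]` and no symbol repeated along an axis-parallel line. -/
def IsLHC (d n k : ℕ) (H : (Fin (d - 1) → Fin n) → Fin k → Fin n) : Prop :=
  (∀ x, Injective (H x)) ∧
    ∀ (i : Fin (d - 1)) (x : Fin (d - 1) → Fin n) (l : Fin k),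
      Injective fun a : Fin n => H (update x i a) l

/-- `H` is contained in a Latin hypercuboid with `m` layers. -/
def ExtendsTo (d n k m : ℕ) (H : (Fin (d - 1) → Fin n) → Fin k → Fin n) : Prop :=
  ∃ L : (Fin (d - 1) → Fin n) → Fin m → Fin n, IsLHC d n m L ∧
    ∀ x (l : Fin k) (l' : Fin m), (l' : ℕ) = l → L x l' = H x l

open Pool.Agent.MP_264e74_co

theorem of_barrier (e n k : ℕ) (B : Barrier (Fin (e + 1)) (Fin n) (Fin k)) :
    ∃ H : (Fin (e + 1 - 1) → Fin n) → Fin k → Fin n, IsLHC (e + 1) n k H ∧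
      ∀ m, k < m → ¬ ExtendsTo (e + 1) n k m H := by
  classical
  change ∃ H : (Fin e → Fin n) → Fin k → Fin n, IsLHC (e + 1) n k H ∧
      ∀ m, k < m → ¬ ExtendsTo (e + 1) n k m H
  obtain ⟨x0, -⟩ : ∃ x0 : Fin (e + 1) → Fin n, True := by
    by_contra h
    have hemp : IsEmpty (Fin (e + 1) → Fin n) := ⟨fun x => h ⟨x, trivial⟩⟩
    have := B.total
    simp at this
  have hex : ∀ (y : Fin e → Fin n) (l : Fin k), ∃! a, B.S l (Fin.cons a y) := by
    intro y l
    have := B.latin l 0 (Fin.cons (x0 0) y)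
    simpa using this
  choose H hH using hex
  have hS : ∀ (y : Fin e → Fin n) l a, B.S l (Fin.cons a y) ↔ H y l = a := fun y l a =>
    ⟨fun h => ((hH y l).2 a h).symm, fun h => h ▸ (hH y l).1⟩
  refine ⟨H, ⟨fun y l l' h => B.disj _ _ _ (hH y l).1 ((hS y l' _).mpr h.symm), ?_⟩, ?_⟩
  · intro i y l a a' h
    obtain ⟨b, -, hb⟩ := B.latin l (Fin.succ i) (Fin.cons (H (update y i a) l) y)
    simp only [← Fin.cons_update] at hb
    rw [hb a ((hS _ _ _).mpr rfl), hb a' ((hS _ _ _).mpr h.symm)]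
  · rintro m hm ⟨L, ⟨hL1, hL2⟩, hL⟩
    have hT : Latin fun x : Fin (e + 1) → Fin n => L (Fin.tail x) ⟨k, hm⟩ = x 0 := by
      intro c x
      refine Fin.cases ?_ (fun i => ?_) c
      · simp
      · have hb : Bijective fun a : Fin n => L (update (Fin.tail x) i a) ⟨k, hm⟩ :=
          (Finite.injective_iff_bijective).mp (hL2 i (Fin.tail x) ⟨k, hm⟩)
        have := hb.existsUnique (x 0)
        simpa [Fin.tail_update_succ, update_of_ne (Fin.succ_ne_zero i).symm] using this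
    obtain ⟨x, l, h1, h2⟩ := B.meets _ hT
    rw [← Fin.cons_self_tail x, hS] at h2
    have h3 := hL (Fin.tail x) l ⟨l, by omega⟩ rfl
    have h4 := hL1 (Fin.tail x) (h1.trans (h3.trans h2).symm)
    have := congrArg Fin.val h4
    simp only at this
    omega

/-- For `t` coprime to `6`, `j ≥ 1` and `d ≥ 3 ^ j` there is a Latin hypercuboid of dimension `d` and
order `n = (8 t + 5) ^ j` with `k = (2 t + 3) ^ j < n` layers that is neither extendible by one layer
nor completable to a Latin hypercube. -/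
theorem result (t j d : ℕ) (ht : Nat.Coprime t 6) (hj : 1 ≤ j) (hd : 3 ^ j ≤ d) :
    (2 * t + 3) ^ j < (8 * t + 5) ^ j ∧
    ∃ H : (Fin (d - 1) → Fin ((8 * t + 5) ^ j)) → Fin ((2 * t + 3) ^ j) → Fin ((8 * t + 5) ^ j),
      IsLHC d ((8 * t + 5) ^ j) ((2 * t + 3) ^ j) H ∧
      ¬ ExtendsTo d ((8 * t + 5) ^ j) ((2 * t + 3) ^ j) ((2 * t + 3) ^ j + 1) H ∧
      ¬ ExtendsTo d ((8 * t + 5) ^ j) ((2 * t + 3) ^ j) ((8 * t + 5) ^ j) H := by
  classical
  have hlt : (2 * t + 3) ^ j < (8 * t + 5) ^ j := Nat.pow_lt_pow_left (by omega) (by omega)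
  refine ⟨hlt, ?_⟩
  have ht0 : t ≠ 0 := by rintro rfl; simp at ht
  have : NeZero t := ⟨ht0⟩
  obtain ⟨e, rfl⟩ : ∃ e, d = e + 1 := ⟨d - 1, by have := Nat.one_le_pow j 3 (by norm_num); omega⟩
  have hu : IsUnit ((6 : ℕ) : ZMod t) := (ZMod.isUnit_iff_coprime 6 t).mpr ht.symm
  obtain ⟨v, hv⟩ := hu.exists_right_inv
  obtain ⟨p, hp⟩ : ∃ p : Fin (e + 1) → Fin j → Fin 3, Surjective p := by
    obtain ⟨g⟩ : Nonempty ((Fin j → Fin 3) ↪ Fin (e + 1)) :=
      Function.Embedding.nonempty_of_card_le (by simpa using hd)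
    exact ⟨invFun g, invFun_surjective g.injective⟩
  obtain ⟨B⟩ := exists_barrier (A := ZMod t) (3 * v) (2 * v)
    (by push_cast at hv; linear_combination hv) (by push_cast at hv; linear_combination hv) j _ p hp
  let e1 : Fin ((8 * t + 5) ^ j) ≃ (Fin j → Elt (ZMod t) 8 5) :=
    Fintype.equivOfCardEq (by simp [ZMod.card, mul_comm])
  let e2 : Fin ((2 * t + 3) ^ j) ≃ (Fin j → Elt (ZMod t) 2 3) :=
    Fintype.equivOfCardEq (by simp [ZMod.card, mul_comm])
  obtain ⟨H, h1, h2⟩ := of_barrier e _ _ (B.map e1 e2)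
  exact ⟨H, h1, h2 _ (Nat.lt_succ_self _), h2 _ hlt⟩

end Pool.Agent.Results.MP_264e74_co.QuarterBound
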